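import Mathlib
import Pool.Agent.H20.NonrepDefs
import Pool.Agent.H20.NonrepMain

set_option autoImplicit false

namespace Pool.Agent.Results.MP_4d584d_co.Subdivision

open Pool.Agent.H20.Nonrep

/-- Every finite graph `G` has a subdivision `G_S` with at most `2 ⌈log₂ π(G)⌉ + 1` division
vertices on each edge which has a nonrepetitive colouring with `10` colours; so `π(G_S) ≤ 10`. -/
theorem result :
    ∀ (V : Type) [Fintype V] [LinearOrder V] (G : SimpleGraph V),
      ∃ s : Edge G → ℕ, (∀ e, s e ≤ 2 * Nat.clog 2 (thueNumber G) + 1) ∧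
        (∃ c : SubVert G s → Fin 10, IsNonrepetitive (subdivision G s) c) ∧
        thueNumber (subdivision G s) ≤ 10 := by
  intro V _ _ G
  obtain ⟨c, hc⟩ := main G
  exact ⟨_, fun _ => le_rfl, ⟨c, hc⟩, thueNumber_le (Fintype.card_fin 10) hc⟩

end Pool.Agent.Results.MP_4d584d_co.Subdivision
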